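import Pool.Agent.Helper42.LS.Defs

namespace Pool.Agent.Helper42.LS

lemma pg_nr_nonneg (p : ℕ) (q : ℚ) : 0 ≤ nr p q := by
  unfold nr; exact_mod_cast padicNorm.nonneg q

lemma pg_nr_mul (p : ℕ) [Fact p.Prime] (q r : ℚ) : nr p (q * r) = nr p q * nr p r := by
  unfold nr; rw [padicNorm.mul]; push_cast; rfl

lemma pg_nr_pow (p : ℕ) [Fact p.Prime] (q : ℚ) (n : ℕ) : nr p (q ^ n) = nr p q ^ n := by
  induction n with
  | zero => simp [nr]
  | succ n ih => rw [pow_succ, pg_nr_mul, ih, pow_succ]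

lemma pg_nr_neg (p : ℕ) (q : ℚ) : nr p (-q) = nr p q := by
  unfold nr; rw [padicNorm.neg]

lemma pg_nr_add (p : ℕ) [Fact p.Prime] (q r : ℚ) : nr p (q + r) ≤ max (nr p q) (nr p r) := by
  unfold nr; exact_mod_cast padicNorm.nonarchimedean

lemma pg_nr_sub (p : ℕ) [Fact p.Prime] (q r : ℚ) : nr p (q - r) ≤ max (nr p q) (nr p r) := by
  unfold nr; exact_mod_cast padicNorm.sub

lemma pg_nr_add_le (p : ℕ) [Fact p.Prime] {q r : ℚ} {M : ℝ} (h1 : nr p q ≤ M) (h2 : nr p r ≤ M) :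
    nr p (q + r) ≤ M := (pg_nr_add p q r).trans (max_le h1 h2)

lemma pg_nr_sub_le (p : ℕ) [Fact p.Prime] {q r : ℚ} {M : ℝ} (h1 : nr p q ≤ M) (h2 : nr p r ≤ M) :
    nr p (q - r) ≤ M := (pg_nr_sub p q r).trans (max_le h1 h2)

lemma pg_nr_nat (p : ℕ) [Fact p.Prime] (n : ℕ) : nr p (n : ℚ) ≤ 1 := by
  unfold nr; exact_mod_cast padicNorm.of_nat n

lemma pg_nr_pos (p : ℕ) [Fact p.Prime] {q : ℚ} (h : q ≠ 0) : 0 < nr p q := by
  unfold nr
  have := padicNorm.nonzero (p := p) h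
  have h1 : 0 ≤ padicNorm p q := padicNorm.nonneg q
  exact_mod_cast lt_of_le_of_ne h1 (Ne.symm this)

/-- multiplication by a natural number does not increase the norm -/
lemma pg_nr_natmul (p : ℕ) [Fact p.Prime] (n : ℕ) {q : ℚ} {M : ℝ} (h : nr p q ≤ M) :
    nr p ((n : ℚ) * q) ≤ M := by
  rw [pg_nr_mul]
  have h1 := pg_nr_nat p n
  have h2 := pg_nr_nonneg p q
  nlinarith [pg_nr_nonneg p (n : ℚ)]

/-- the basic inequality -/
lemma pg_core (p : ℕ) [Fact p.Prime] (A B x : ℚ) (R s f : ℝ) (hR : 0 < R) (hs : 1 ≤ s)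
    (hf : 1 ≤ f) (hD : nr p (dsc A B) = R ^ 6) (hA : nr p A ≤ s ^ 2 * R ^ 2)
    (hB : nr p B ≤ s ^ 3 * R ^ 3) (h4 : ∀ q : ℚ, nr p q ≤ f * nr p (4 * q)) :
    max (nr p x) R ^ 4 ≤ s ^ 7 * f * max (nr p (th A B x)) (R * nr p (4 * cu A B x)) := by
  have hx0 := pg_nr_nonneg p x
  have hA0 := pg_nr_nonneg p A
  have hB0 := pg_nr_nonneg p B
  have ht0 := pg_nr_nonneg p (th A B x)
  have hc0 := pg_nr_nonneg p (cu A B x)
  have hc4 := pg_nr_nonneg p (4 * cu A B x)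
  have hs7 : (1 : ℝ) ≤ s ^ 7 * f := by
    have : (1 : ℝ) ≤ s ^ 7 := one_le_pow₀ hs
    nlinarith
  by_cases hx : s * R < nr p x
  · -- big x
    have hxR : R ≤ nr p x := by nlinarith
    rw [max_eq_left hxR]
    have hxp : 0 < nr p x := lt_of_lt_of_le hR hxR
    have b1 : nr p A < nr p x ^ 2 := by nlinarith [mul_pos (lt_of_lt_of_le one_pos hs) hR]
    have hsR : 0 < s * R := mul_pos (lt_of_lt_of_le one_pos hs) hR
    have b2 : nr p B < nr p x ^ 3 := by
      have : (s * R) ^ 3 < nr p x ^ 3 := pow_lt_pow_left₀ hx hsR.le (by norm_num)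
      have e : (s * R) ^ 3 = s ^ 3 * R ^ 3 := by ring
      linarith
    have hrest : nr p (x ^ 4 - th A B x) < nr p x ^ 4 := by
      have e : x ^ 4 - th A B x = ((2 : ℕ) : ℚ) * (A * x ^ 2) + ((8 : ℕ) : ℚ) * (B * x) - A ^ 2 := by
        unfold th; push_cast; ring
      rw [e]
      have c1 : nr p (A * x ^ 2) < nr p x ^ 4 := by
        rw [pg_nr_mul, pg_nr_pow]
        nlinarith [pow_pos hxp 2]
      have c2 : nr p (B * x) < nr p x ^ 4 := by
        rw [pg_nr_mul]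
        nlinarith [pow_pos hxp 3]
      have c3 : nr p (A ^ 2) < nr p x ^ 4 := by
        rw [pg_nr_pow]
        have : nr p A ^ 2 < (nr p x ^ 2) ^ 2 := pow_lt_pow_left₀ b1 hA0 (by norm_num)
        have e : (nr p x ^ 2) ^ 2 = nr p x ^ 4 := by ring
        linarith
      have d1 := pg_nr_natmul p 2 (le_refl (nr p (A * x ^ 2)))
      have d2 := pg_nr_natmul p 8 (le_refl (nr p (B * x)))
      refine lt_of_le_of_lt (pg_nr_sub p _ _) (max_lt ?_ c3)
      exact lt_of_le_of_lt (pg_nr_add p _ _) (max_lt (d1.trans_lt c1) (d2.trans_lt c2))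
    have h5 : nr p x ^ 4 ≤ nr p (th A B x) := by
      by_contra hcon
      push Not at hcon
      have e : x ^ 4 = (x ^ 4 - th A B x) + th A B x := by ring
      have := pg_nr_add p (x ^ 4 - th A B x) (th A B x)
      rw [← e, pg_nr_pow] at this
      have := lt_of_le_of_lt this (max_lt hrest hcon)
      exact lt_irrefl _ this
    have h6 : nr p (th A B x) ≤ max (nr p (th A B x)) (R * nr p (4 * cu A B x)) := le_max_left _ _
    have h7 : 0 ≤ max (nr p (th A B x)) (R * nr p (4 * cu A B x)) := ht0.trans h6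
    nlinarith
  · push Not at hx
    set Mx := max (nr p (th A B x)) (R * nr p (4 * cu A B x)) with hMx
    have hM0 : 0 ≤ Mx := ht0.trans (le_max_left _ _)
    have hth : nr p (th A B x) ≤ Mx := le_max_left _ _
    have hcu : R * nr p (4 * cu A B x) ≤ Mx := le_max_right _ _
    have hsR : 0 < s * R := mul_pos (lt_of_lt_of_le one_pos hs) hR
    have key : (3 * x ^ 2 + 4 * A) * th A B x - (3 * x ^ 3 - 5 * A * x - 27 * B) * cu A B x =
        dsc A B := by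
      unfold th cu dsc; ring
    have k1 : nr p (3 * x ^ 2 + 4 * A) ≤ s ^ 2 * R ^ 2 := by
      have a1 : nr p (((3 : ℕ) : ℚ) * x ^ 2) ≤ s ^ 2 * R ^ 2 := by
        apply pg_nr_natmul
        rw [pg_nr_pow]
        have : nr p x ^ 2 ≤ (s * R) ^ 2 := pow_le_pow_left₀ hx0 hx 2
        have e : (s * R) ^ 2 = s ^ 2 * R ^ 2 := by ring
        linarith
      have a2 : nr p (((4 : ℕ) : ℚ) * A) ≤ s ^ 2 * R ^ 2 := pg_nr_natmul p 4 hA
      exact_mod_cast pg_nr_add_le p a1 a2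
    have k2 : nr p (3 * x ^ 3 - 5 * A * x - 27 * B) ≤ s ^ 3 * R ^ 3 := by
      have a1 : nr p (((3 : ℕ) : ℚ) * x ^ 3) ≤ s ^ 3 * R ^ 3 := by
        apply pg_nr_natmul
        rw [pg_nr_pow]
        have : nr p x ^ 3 ≤ (s * R) ^ 3 := pow_le_pow_left₀ hx0 hx 3
        have e : (s * R) ^ 3 = s ^ 3 * R ^ 3 := by ring
        linarith
      have a2 : nr p (((5 : ℕ) : ℚ) * (A * x)) ≤ s ^ 3 * R ^ 3 := by
        apply pg_nr_natmul
        rw [pg_nr_mul]
        calc nr p A * nr p x ≤ (s ^ 2 * R ^ 2) * (s * R) :=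
              mul_le_mul hA hx hx0 (by positivity)
          _ = s ^ 3 * R ^ 3 := by ring
      have a3 : nr p (((27 : ℕ) : ℚ) * B) ≤ s ^ 3 * R ^ 3 := pg_nr_natmul p 27 hB
      have := pg_nr_sub_le p (pg_nr_sub_le p a1 a2) a3
      have e : 3 * x ^ 3 - 5 * A * x - 27 * B =
        ((3 : ℕ) : ℚ) * x ^ 3 - ((5 : ℕ) : ℚ) * (A * x) - ((27 : ℕ) : ℚ) * B := by push_cast; ring
      rw [e]; exact this
    have k3 : R ^ 6 ≤ s ^ 3 * f * R ^ 2 * Mx := by
      rw [← hD, ← key]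
      apply pg_nr_sub_le p
      · rw [pg_nr_mul]
        have s1 : s ^ 2 ≤ s ^ 3 * f := by
          have : s ^ 3 * f = s ^ 2 * (s * f) := by ring
          rw [this]
          have hsf : 1 ≤ s * f := by nlinarith
          nlinarith [pow_pos (lt_of_lt_of_le one_pos hs) 2]
        calc nr p (3 * x ^ 2 + 4 * A) * nr p (th A B x) ≤ (s ^ 2 * R ^ 2) * Mx :=
              mul_le_mul k1 hth ht0 (by positivity)
          _ = s ^ 2 * (R ^ 2 * Mx) := by ring
          _ ≤ (s ^ 3 * f) * (R ^ 2 * Mx) := by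
              apply mul_le_mul_of_nonneg_right s1 (by positivity)
          _ = s ^ 3 * f * R ^ 2 * Mx := by ring
      · rw [pg_nr_mul]
        have hf0 : 0 ≤ f := by linarith
        calc nr p (3 * x ^ 3 - 5 * A * x - 27 * B) * nr p (cu A B x)
            ≤ (s ^ 3 * R ^ 3) * (f * nr p (4 * cu A B x)) :=
              mul_le_mul k2 (h4 _) hc0 (by positivity)
          _ = (s ^ 3 * f * R ^ 2) * (R * nr p (4 * cu A B x)) := by ring
          _ ≤ (s ^ 3 * f * R ^ 2) * Mx := by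
              apply mul_le_mul_of_nonneg_left hcu (by positivity)
          _ = s ^ 3 * f * R ^ 2 * Mx := by ring
    have k4 : R ^ 4 ≤ s ^ 3 * f * Mx := by
      have : R ^ 2 * R ^ 4 ≤ R ^ 2 * (s ^ 3 * f * Mx) := by nlinarith
      exact le_of_mul_le_mul_left this (by positivity)
    have k5 : max (nr p x) R ≤ s * R := max_le hx (by nlinarith)
    have k6 : max (nr p x) R ^ 4 ≤ (s * R) ^ 4 :=
      pow_le_pow_left₀ (hx0.trans (le_max_left _ _)) k5 4
    calc max (nr p x) R ^ 4 ≤ (s * R) ^ 4 := k6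
      _ = s ^ 4 * R ^ 4 := by ring
      _ ≤ s ^ 4 * (s ^ 3 * f * Mx) := by
          apply mul_le_mul_of_nonneg_left k4 (by positivity)
      _ = s ^ 7 * f * Mx := by ring

/-- `X (2k) * 4 cu = th` -/
lemma pg_dbl {A B : ℚ} {x y : ℕ → ℚ} (h : GSeq (0 : ℚ) A B x y) (k : ℕ) (hk : 1 ≤ k) :
    x (2 * k) * (4 * cu A B (x k)) = th A B (x k) ∧ cu A B (x k) ≠ 0 := by
  have h1 := h.dblx k hk
  have h2 := h.curve k hk
  have h3 := h.yne k hk
  have h4 : cu A B (x k) = y k ^ 2 := by unfold cu; rw [h2]; ring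
  refine ⟨?_, ?_⟩
  · rw [h1, h4]
    have h5 : (((3 * x k ^ 2 + 2 * 0 * x k + A) / (2 * y k)) ^ 2 - 0 - 2 * x k) * (4 * y k ^ 2) =
        (3 * x k ^ 2 + A) ^ 2 - 8 * x k * y k ^ 2 := by
      field_simp; ring
    rw [h5, h2]; unfold th; ring
  · rw [h4]; exact pow_ne_zero 2 h3

/-- general form -/
lemma pg_main (p : ℕ) [Fact p.Prime] (A B : ℚ) (hD0 : dsc A B ≠ 0) (s f : ℝ) (hs : 1 ≤ s)
    (hf : 1 ≤ f) (hA : nr p A ^ 3 ≤ s ^ 6 * nr p (dsc A B))
    (hB : nr p B ^ 2 ≤ s ^ 6 * nr p (dsc A B)) (h4 : ∀ q : ℚ, nr p q ≤ f * nr p (4 * q))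
    (x y : ℕ → ℚ) (hG : GSeq (0 : ℚ) A B x y) :
    ∃ U : ℕ → ℝ, (∀ k : ℕ, 1 ≤ k → 4 * U k - Real.log (s ^ 7 * f) ≤
        U (2 * k) + Real.log (nr p (4 * cu A B (x k)))) ∧
    (∃ C : ℝ, ∀ k : ℕ, 1 ≤ k → U k ≤ Real.log (max (nr p (x k)) 1) + C) ∧
    (∀ k : ℕ, 1 ≤ k → 1 / 6 * Real.log (nr p (dsc A B)) ≤ U k) ∧
    (∀ k : ℕ, 1 ≤ k → 1 ≤ nr p (x k) → 0 ≤ U k) := by
  have hDp : 0 < nr p (dsc A B) := pg_nr_pos p hD0
  set R : ℝ := (nr p (dsc A B)) ^ (1 / 6 : ℝ) with hR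
  have hRp : 0 < R := Real.rpow_pos_of_pos hDp _
  have hR6 : nr p (dsc A B) = R ^ 6 := by
    rw [hR, ← Real.rpow_natCast, ← Real.rpow_mul hDp.le]
    norm_num
  have hs0 : 0 < s := by linarith
  have hA2 : nr p A ≤ s ^ 2 * R ^ 2 := by
    have : nr p A ^ 3 ≤ (s ^ 2 * R ^ 2) ^ 3 := by
      rw [hR6] at hA
      calc nr p A ^ 3 ≤ s ^ 6 * R ^ 6 := hA
        _ = (s ^ 2 * R ^ 2) ^ 3 := by ring
    exact le_of_pow_le_pow_left₀ (by norm_num) (by positivity) this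
  have hB2 : nr p B ≤ s ^ 3 * R ^ 3 := by
    have : nr p B ^ 2 ≤ (s ^ 3 * R ^ 3) ^ 2 := by
      rw [hR6] at hB
      calc nr p B ^ 2 ≤ s ^ 6 * R ^ 6 := hB
        _ = (s ^ 3 * R ^ 3) ^ 2 := by ring
    exact le_of_pow_le_pow_left₀ (by norm_num) (by positivity) this
  refine ⟨fun k => Real.log (max (nr p (x k)) R), ?_, ?_, ?_, ?_⟩
  · intro k hk
    obtain ⟨d1, d2⟩ := pg_dbl hG k hk
    have hcore := pg_core p A B (x k) R s f hRp hs hf hR6 hA2 hB2 h4
    have h4c : 0 < nr p (4 * cu A B (x k)) := pg_nr_pos p (mul_ne_zero (by norm_num) d2)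
    have hmx : max (nr p (th A B (x k))) (R * nr p (4 * cu A B (x k))) =
        max (nr p (x (2 * k))) R * nr p (4 * cu A B (x k)) := by
      rw [← d1, pg_nr_mul, max_mul_of_nonneg _ _ h4c.le]
    rw [hmx] at hcore
    have p1 : 0 < max (nr p (x k)) R := lt_max_of_lt_right hRp
    have p2 : 0 < max (nr p (x (2 * k))) R := lt_max_of_lt_right hRp
    have hsf : 0 < s ^ 7 * f := by positivity
    have hl := Real.log_le_log (pow_pos p1 4) hcore
    rw [Real.log_pow, Real.log_mul hsf.ne' (mul_pos p2 h4c).ne', Real.log_mul p2.ne' h4c.ne'] at hl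
    push_cast at hl
    linarith
  · refine ⟨Real.log (max R 1), ?_⟩
    intro k hk
    have p1 : 0 < max (nr p (x k)) R := lt_max_of_lt_right hRp
    have q1 : (1 : ℝ) ≤ max (nr p (x k)) 1 := le_max_right _ _
    have q2 : (1 : ℝ) ≤ max R 1 := le_max_right _ _
    rw [← Real.log_mul (by linarith) (by linarith)]
    apply Real.log_le_log p1
    have r1 := pg_nr_nonneg p (x k)
    apply max_le
    · calc nr p (x k) ≤ max (nr p (x k)) 1 := le_max_left _ _
        _ = max (nr p (x k)) 1 * 1 := by ring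
        _ ≤ max (nr p (x k)) 1 * max R 1 := by
            apply mul_le_mul_of_nonneg_left q2 (by linarith)
    · calc R ≤ max R 1 := le_max_left _ _
        _ = 1 * max R 1 := by ring
        _ ≤ max (nr p (x k)) 1 * max R 1 := by
            apply mul_le_mul_of_nonneg_right q1 (by linarith)
  · intro k hk
    rw [← Real.log_rpow hDp]
    exact Real.log_le_log hRp (le_max_right _ _)
  · intro k hk h1
    exact Real.log_nonneg (h1.trans (le_max_left _ _))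

lemma pg_nr_nat_eq (p : ℕ) [Fact p.Prime] (n : ℕ) (h : ¬ p ∣ n) : nr p (n : ℚ) = 1 := by
  unfold nr
  have := (padicNorm.nat_eq_one_iff (p := p) n).mpr h
  rw [this]; norm_num

theorem st_PG : ST_PG := by
  intro p hp h5 A B hD hle x y hG
  have : Fact p.Prime := ⟨hp⟩
  have n2 : ¬ p ∣ 2 := fun h => by have := Nat.le_of_dvd (by norm_num) h; omega
  have n3 : ¬ p ∣ 3 := fun h => by have := Nat.le_of_dvd (by norm_num) h; omega
  have e2 : nr p 2 = 1 := by exact_mod_cast pg_nr_nat_eq p 2 n2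
  have e3 : nr p 3 = 1 := by exact_mod_cast pg_nr_nat_eq p 3 n3
  have hA : nr p A ^ 3 ≤ nr p (dsc A B) := by
    have e : (6912 : ℚ) * A ^ 3 = 2 ^ 8 * 3 ^ 3 * A ^ 3 := by ring
    rw [e, pg_nr_mul, pg_nr_mul, pg_nr_pow, pg_nr_pow, pg_nr_pow, e2, e3] at hle
    linarith
  have hB : nr p B ^ 2 ≤ nr p (dsc A B) := by
    have e : (3 : ℚ) ^ 3 * B ^ 2 = dsc A B - 2 ^ 2 * A ^ 3 := by unfold dsc; ring
    have h1 : nr p ((3 : ℚ) ^ 3 * B ^ 2) ≤ nr p (dsc A B) := by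
      rw [e]
      apply pg_nr_sub_le p (le_refl _)
      rw [pg_nr_mul, pg_nr_pow, pg_nr_pow, e2]; linarith
    rw [pg_nr_mul, pg_nr_pow, pg_nr_pow, e3] at h1
    linarith
  obtain ⟨U, h1, h2, h3, h4⟩ := pg_main p A B hD 1 1 le_rfl le_rfl (by simpa using hA)
    (by simpa using hB) (by
      intro q
      have e : (4 : ℚ) * q = 2 ^ 2 * q := by ring
      rw [e, pg_nr_mul, pg_nr_pow, e2]; linarith) x y hG
  refine ⟨U, ?_, h2, h3, h4⟩
  intro k hk
  have := h1 k hk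
  simpa using this

theorem st_PS : ST_PS := by
  refine ⟨Real.log ((3 : ℝ) ^ 7 * 4), ?_⟩
  intro p hp A B hD hle x y hG
  rcases hp with rfl | rfl
  · have : Fact (Nat.Prime 2) := ⟨Nat.prime_two⟩
    have e2 : nr 2 2 = 1 / 2 := by
      unfold nr
      have := padicNorm.padicNorm_p_of_prime (p := 2)
      push_cast at this
      rw [this]; norm_num
    have e3 : nr 2 3 = 1 := by exact_mod_cast pg_nr_nat_eq 2 3 (by norm_num)
    have hDn := pg_nr_nonneg 2 (dsc A B)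
    have hA' : nr 2 A ^ 3 ≤ 256 * nr 2 (dsc A B) := by
      have e : (6912 : ℚ) * A ^ 3 = 2 ^ 8 * 3 ^ 3 * A ^ 3 := by ring
      rw [e, pg_nr_mul, pg_nr_mul, pg_nr_pow, pg_nr_pow, pg_nr_pow, e2, e3] at hle
      linarith
    have hB' : nr 2 B ^ 2 ≤ 64 * nr 2 (dsc A B) := by
      have e : (3 : ℚ) ^ 3 * B ^ 2 = dsc A B - 2 ^ 2 * A ^ 3 := by unfold dsc; ring
      have h1 : nr 2 ((3 : ℚ) ^ 3 * B ^ 2) ≤ 64 * nr 2 (dsc A B) := by
        rw [e]
        apply pg_nr_sub_le 2 (by linarith)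
        rw [pg_nr_mul, pg_nr_pow, pg_nr_pow, e2]; linarith
      rw [pg_nr_mul, pg_nr_pow, pg_nr_pow, e3] at h1
      linarith
    obtain ⟨U, h1, h2, h3, h4⟩ := pg_main 2 A B hD 3 4 (by norm_num) (by norm_num)
      (by linarith) (by linarith) (by
        intro q
        have e : (4 : ℚ) * q = 2 ^ 2 * q := by ring
        rw [e, pg_nr_mul, pg_nr_pow, e2]; linarith) x y hG
    exact ⟨U, h1, h2, h3⟩
  · have : Fact (Nat.Prime 3) := ⟨Nat.prime_three⟩
    have e3 : nr 3 3 = 1 / 3 := by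
      unfold nr
      have := padicNorm.padicNorm_p_of_prime (p := 3)
      push_cast at this
      rw [this]; norm_num
    have e2 : nr 3 2 = 1 := by exact_mod_cast pg_nr_nat_eq 3 2 (by norm_num)
    have hDn := pg_nr_nonneg 3 (dsc A B)
    have hA' : nr 3 A ^ 3 ≤ 27 * nr 3 (dsc A B) := by
      have e : (6912 : ℚ) * A ^ 3 = 2 ^ 8 * 3 ^ 3 * A ^ 3 := by ring
      rw [e, pg_nr_mul, pg_nr_mul, pg_nr_pow, pg_nr_pow, pg_nr_pow, e2, e3] at hle
      linarith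
    have hB' : nr 3 B ^ 2 ≤ 729 * nr 3 (dsc A B) := by
      have e : (3 : ℚ) ^ 3 * B ^ 2 = dsc A B - 2 ^ 2 * A ^ 3 := by unfold dsc; ring
      have h1 : nr 3 ((3 : ℚ) ^ 3 * B ^ 2) ≤ 27 * nr 3 (dsc A B) := by
        rw [e]
        apply pg_nr_sub_le 3 (by linarith)
        rw [pg_nr_mul, pg_nr_pow, pg_nr_pow, e2]; linarith
      rw [pg_nr_mul, pg_nr_pow, pg_nr_pow, e3] at h1
      linarith
    obtain ⟨U, h1, h2, h3, h4⟩ := pg_main 3 A B hD 3 4 (by norm_num) (by norm_num)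
      (by linarith) (by linarith) (by
        intro q
        have e : (4 : ℚ) * q = 2 ^ 2 * q := by ring
        have := pg_nr_nonneg 3 q
        rw [e, pg_nr_mul, pg_nr_pow, e2]; linarith) x y hG
    exact ⟨U, h1, h2, h3⟩

end Pool.Agent.Helper42.LS
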